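import Pool.Agent.Y935.RE.Stm
import Pool.Agent.TH915.PW.Exp

/-!
Exponential sums with the phase `lam n ^ c`, `c` not an integer, with a power saving that
depends only on `⌊c⌋` (adapted from `Pool/Agent/TH915/PW/Exp.lean` and
`Pool/Agent/H221R2/FB_VdcGen.lean`).
-/

set_option autoImplicit false

namespace Pool.Agent.Y847.RE

open Finset Filter
open Pool.Agent.H469R2.NK (e norm_e kusmin_landau_mono norm_sum_neg Av Av_le Cq Cq_pos
  iterate harm_le)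
open Pool.Agent.TH915.PW (Hy ED SD SD_sq SD_le)

/-- the exponential sum bound with the harmonic average -/
theorem exp_boundH {k : ℕ} {A B lo hi : ℝ} {φ : ℕ → ℝ → ℝ} (hlo : 0 < lo) (hhi : 0 ≤ hi) (θ : ℝ)
    (hθ : 0 < θ) (h : Hy k A B lo hi φ) (u : ℝ) (N L H : ℕ) (hN : 1 ≤ N) (hL : L ≤ N)
    (hu : A ≤ u) (huL : u + L ≤ B) (hH : 1 ≤ H) (hHN : H ≤ N)
    (hup : 2 * (θ * (hi * (H : ℝ) ^ k)) ≤ 1) :
    (‖SD φ θ u L []‖ / N) ^ (2 ^ k) ≤
      Cq k * (1 / H + (2 / (θ * lo) / N) * ((∑ l ∈ Ico 1 H, (1 : ℝ) / l) / H) ^ k) := by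
  have hN' : (1 : ℝ) ≤ N := by exact_mod_cast hN
  have hH' : (1 : ℝ) ≤ H := by exact_mod_cast hH
  have hL' : (L : ℝ) ≤ N := by exact_mod_cast hL
  have hHN' : (H : ℝ) ≤ N := by exact_mod_cast hHN
  have hstep : ∀ ls : List ℕ, (‖SD φ θ u L ls‖ / N) ^ 2 ≤
      2 / H + 4 * ((∑ l ∈ Ico 1 H, ‖SD φ θ u L (l :: ls)‖ / N) / H) := by
    intro ls
    have h := SD_sq φ θ u L H ls
    set Sg := ∑ l ∈ Ico 1 H, ‖SD φ θ u L (l :: ls)‖ with hSg
    have hSg0 : 0 ≤ Sg := sum_nonneg fun _ _ => norm_nonneg _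
    have h2 : (H : ℝ) * ‖SD φ θ u L ls‖ ^ 2 ≤ (2 * N) * (N + 2 * Sg) := by
      refine h.trans ?_
      have : (L : ℝ) + H ≤ 2 * N := by linarith
      gcongr
    rw [← sum_div, ← hSg]
    have e1 : 2 / (H : ℝ) + 4 * (Sg / N / H) = ((2 * N) * (N + 2 * Sg)) / (H * N ^ 2) := by
      field_simp
      ring
    rw [e1, div_pow, div_le_div_iff₀ (by positivity) (by positivity)]
    calc ‖SD φ θ u L ls‖ ^ 2 * (H * N ^ 2) = ((H : ℝ) * ‖SD φ θ u L ls‖ ^ 2) * N ^ 2 := by ring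
      _ ≤ _ := by gcongr
  have hit := iterate hH (fun ls => ‖SD φ θ u L ls‖ / N) (fun ls => by positivity) hstep k []
  refine hit.trans ?_
  have hC := Cq_pos k
  gcongr
  have h1 := Av_le (H := H) (T := fun ls => ‖SD φ θ u L ls‖ / N)
    (κ := 2 / (θ * lo) / N) k (by
      intro ls hlen hent
      have hpos : 0 < ls.prod := List.prod_pos fun l hl => (hent l hl).1
      have hle : ls.prod ≤ H ^ k := by
        have := List.prod_le_pow_card ls H (fun l hl => (hent l hl).2.le)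
        rwa [hlen] at this
      have hle' : ((ls.prod : ℕ) : ℝ) ≤ (H : ℝ) ^ k := by exact_mod_cast hle
      have h1 := SD_le hlo θ hθ h u L hu huL ls hpos hlen (by
        refine le_trans ?_ hup
        gcongr)
      have hP : (0 : ℝ) < (ls.prod : ℕ) := by exact_mod_cast hpos
      calc ‖SD φ θ u L ls‖ / N ≤ (2 / (θ * lo * (ls.prod : ℕ))) / N := by
            gcongr
        _ = _ := by field_simp) k [] (by simp) (by simp)
  simpa using h1

lemma alg_aux2 (Z N W Y G X B c : ℝ) (hZ : Z ≠ 0) (hN : N ≠ 0) (hc : c ≠ 0) (hW : W ≠ 0)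
    (hY : Y ≠ 0) :
    2 / (Z * (c / (Y * N))) / N * (G * X * B / W) = (2 / c) * B * G * (X * Y / (Z * W)) := by
  field_simp

/-- positive frequencies, with an explicit saving -/
theorem core (Q : ℕ) (hQ : 1 ≤ Q) (c0 C0 D : ℝ) (hc0 : 0 < c0) (hC0 : 1 ≤ C0) (hD : 0 < D) :
    ∃ C : ℝ, 0 < C ∧ ∀ (N L : ℕ) (u Z : ℝ) (φ : ℕ → ℝ → ℝ), 1 ≤ N →
      (N : ℝ) ≤ u → L ≤ N → u + L ≤ 3 * N →
      Hy Q N (3 * N) (c0 / (N : ℝ) ^ (Q + 1)) (C0 / (N : ℝ) ^ (Q + 1)) φ →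
      (2 * C0 ≤ (N : ℝ) ^ (1 / 4 : ℝ) → Z ≤ (N : ℝ) ^ (3 / 4 : ℝ) →
        ‖∑ n ∈ range L, e (Z * φ 0 (u + n))‖ ≤ D * (N / Z)) → 1 ≤ Z → Z ≤ (N : ℝ) ^ Q →
      ‖∑ n ∈ range L, e (Z * φ 0 (u + n))‖ ≤
        C * ((N : ℝ) ^ (1 - (1 / (4 * Q * 2 ^ Q) : ℝ)) + N / Z) := by
  set η : ℝ := 1 / (4 * Q * 2 ^ Q) with hη
  have hQ' : (1 : ℝ) ≤ Q := by exact_mod_cast hQ
  have h2Q : (1 : ℝ) ≤ 2 ^ Q := one_le_pow₀ (by norm_num)
  have hη0 : 0 < η := by rw [hη]; positivity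
  have hη1 : η ≤ 1 / 4 := by
    rw [hη, div_le_div_iff₀ (by positivity) (by norm_num)]
    nlinarith
  set N0 : ℝ := max 16 ((2 * C0) ^ 4) with hN0
  set K : ℝ := Cq Q * (2 + (2 / c0) * 2 ^ Q * (1 + 4 * Q) ^ Q) with hK
  have hCq := Cq_pos Q
  have hK0 : 0 < K := by rw [hK]; positivity
  set C : ℝ := max (max D N0) (K ^ ((1 : ℝ) / 2 ^ Q)) with hC
  refine ⟨C, by rw [hC]; positivity, ?_⟩
  intro N L u Z φ hN ha hL haL h hdir hZ1 hZ2
  have hN' : (1 : ℝ) ≤ N := by exact_mod_cast hN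
  have hNpos : (0 : ℝ) < N := by linarith
  have hC6 : D ≤ C := (le_max_left _ _).trans (le_max_left _ _)
  have hCN0 : N0 ≤ C := (le_max_right _ _).trans (le_max_left _ _)
  have hCK : K ^ ((1 : ℝ) / 2 ^ Q) ≤ C := le_max_right _ _
  have hCpos : 0 < C := lt_of_lt_of_le (by positivity) hC6
  have hZ : 0 < Z := by linarith
  have hSS : ∑ n ∈ range L, e (Z * φ 0 (u + n)) = SD φ Z u L [] := by
    unfold SD
    simp only [List.sum_nil, Nat.sub_zero]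
    rfl
  rw [hSS] at hdir ⊢
  have htriv : ‖SD φ Z u L []‖ ≤ N := by
    unfold SD
    refine (norm_sum_le _ _).trans ?_
    simp only [norm_e, sum_const, card_range, nsmul_eq_mul, mul_one, List.sum_nil, Nat.sub_zero]
    exact_mod_cast hL
  have hp1 : 0 ≤ C * (N / Z) := by positivity
  have hp2 : 0 ≤ C * (N : ℝ) ^ (1 - η) := by positivity
  rcases lt_or_ge (N : ℝ) N0 with hsmall | hbig
  · refine htriv.trans ?_
    calc (N : ℝ) ≤ N0 * 1 := by linarith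
      _ ≤ C * (N : ℝ) ^ (1 - η) := by
        gcongr
        exact Real.one_le_rpow hN' (by linarith)
      _ ≤ _ := by rw [mul_add]; linarith
  have h16 : (16 : ℝ) ≤ N := (le_max_left _ _).trans hbig
  have hfac : (2 * C0) ^ 4 ≤ (N : ℝ) := (le_max_right _ _).trans hbig
  have hfac4 : 2 * C0 ≤ (N : ℝ) ^ (1 / 4 : ℝ) := by
    have h1 : ((2 * C0) ^ (4 : ℕ)) ^ (1 / 4 : ℝ) ≤ (N : ℝ) ^ (1 / 4 : ℝ) := by gcongr
    rw [← Real.rpow_natCast, ← Real.rpow_mul (by positivity)] at h1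
    norm_num at h1
    norm_num
    exact h1
  rcases le_or_gt Z ((N : ℝ) ^ (3 / 4 : ℝ)) with hcase | hcase
  · -- direct Kusmin–Landau
    refine (hdir hfac4 hcase).trans ?_
    rw [mul_add]
    have e4 : D * (N / Z) ≤ C * (N / Z) := by gcongr
    linarith
  · -- Weyl - van der Corput
    set hh : ℝ := ((N : ℝ) ^ (Q + 1 / 2 : ℝ) / Z) ^ ((1 : ℝ) / Q) with hhd
    have hhQ : hh ^ Q = (N : ℝ) ^ (Q + 1 / 2 : ℝ) / Z := by
      rw [hhd, ← Real.rpow_natCast, ← Real.rpow_mul (by positivity),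
        one_div_mul_cancel (by positivity), Real.rpow_one]
    have hh0 : 0 ≤ hh := by rw [hhd]; positivity
    have hlow : (N : ℝ) ^ (1 / 2 : ℝ) ≤ hh ^ Q := by
      rw [hhQ, le_div_iff₀ hZ]
      calc (N : ℝ) ^ (1 / 2 : ℝ) * Z ≤ (N : ℝ) ^ (1 / 2 : ℝ) * (N : ℝ) ^ Q := by gcongr
        _ = _ := by
          rw [← Real.rpow_natCast, ← Real.rpow_add hNpos]
          congr 1; ring
    have hupp : hh ^ Q ≤ (N : ℝ) ^ Q := by
      rw [hhQ, div_le_iff₀ hZ]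
      calc (N : ℝ) ^ (Q + 1 / 2 : ℝ) ≤ (N : ℝ) ^ (Q + 3 / 4 : ℝ) := by
            apply Real.rpow_le_rpow_of_exponent_le hN'; linarith
        _ = (N : ℝ) ^ Q * (N : ℝ) ^ (3 / 4 : ℝ) := by
            rw [Real.rpow_add hNpos, Real.rpow_natCast]
        _ ≤ _ := by gcongr
    have hhN : hh ≤ N := le_of_pow_le_pow_left₀ (by omega) (by positivity) hupp
    have hN12 : (1 : ℝ) ≤ (N : ℝ) ^ (1 / 2 : ℝ) := Real.one_le_rpow hN' (by norm_num)
    have hh1 : 1 ≤ hh := by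
      by_contra hlt
      rw [not_le] at hlt
      have : hh ^ Q ≤ 1 := pow_le_one₀ hh0 hlt.le
      have h4 : (4 : ℝ) ≤ (N : ℝ) ^ (1 / 2 : ℝ) := by
        calc (4 : ℝ) = (16 : ℝ) ^ (1 / 2 : ℝ) := by
              rw [show (16 : ℝ) = 4 ^ (2 : ℝ) by norm_num, ← Real.rpow_mul (by norm_num)]; norm_num
          _ ≤ _ := by gcongr
      linarith
    set H : ℕ := ⌊hh⌋₊ with hH
    have hH1 : 1 ≤ H := Nat.one_le_floor_iff _ |>.mpr hh1
    have hHle : (H : ℝ) ≤ hh := Nat.floor_le hh0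
    have hHN : H ≤ N := by exact_mod_cast hHle.trans hhN
    have hHge : hh / 2 ≤ H := by
      have h1 : hh < H + 1 := Nat.lt_floor_add_one hh
      have h2 : (1 : ℝ) ≤ H := by exact_mod_cast hH1
      linarith
    have hH1' : (1 : ℝ) ≤ H := by exact_mod_cast hH1
    have hsq : 2 * C0 ≤ (N : ℝ) ^ (1 / 2 : ℝ) := by
      refine hfac4.trans ?_
      apply Real.rpow_le_rpow_of_exponent_le hN'
      norm_num
    have hZh : Z * hh ^ Q = (N : ℝ) ^ (Q + 1 / 2 : ℝ) := by rw [hhQ]; field_simp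
    have hcond : 2 * (Z * (C0 / (N : ℝ) ^ (Q + 1) * (H : ℝ) ^ Q)) ≤ 1 := by
      have e1 : (N : ℝ) ^ (Q + 1) = (N : ℝ) ^ (Q + 1 / 2 : ℝ) * (N : ℝ) ^ (1 / 2 : ℝ) := by
        rw [← Real.rpow_add hNpos, ← Real.rpow_natCast]; congr 1; push_cast; ring
      have e2 : 2 * (Z * (C0 / (N : ℝ) ^ (Q + 1) * (H : ℝ) ^ Q)) =
          (2 * C0) * (Z * (H : ℝ) ^ Q) / (N : ℝ) ^ (Q + 1) := by
        ring
      rw [e2, div_le_one (by positivity), e1, ← hZh]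
      calc (2 * C0) * (Z * (H : ℝ) ^ Q) ≤ (N : ℝ) ^ (1 / 2 : ℝ) * (Z * hh ^ Q) := by gcongr
        _ = _ := by ring
    have hb := exp_boundH (k := Q) (lo := c0 / (N : ℝ) ^ (Q + 1)) (hi := C0 / (N : ℝ) ^ (Q + 1))
      (by positivity) (by positivity) Z hZ h u N L H hN hL ha haL hH1 hHN hcond
    -- first term
    have hhlow : (N : ℝ) ^ ((1 : ℝ) / (2 * Q)) ≤ hh := by
      have : ((N : ℝ) ^ ((1 : ℝ) / (2 * Q))) ^ Q ≤ hh ^ Q := by
        rw [← Real.rpow_natCast, ← Real.rpow_mul (by positivity)]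
        refine le_trans (le_of_eq ?_) hlow
        congr 1; field_simp
      exact le_of_pow_le_pow_left₀ (by omega) hh0 this
    have hQpos : (0 : ℝ) < Q := by linarith
    have hterm1 : 1 / (H : ℝ) ≤ 2 * (N : ℝ) ^ (-(1 : ℝ) / (4 * Q)) := by
      have h1 : (0 : ℝ) < (N : ℝ) ^ ((1 : ℝ) / (4 * Q)) := by positivity
      have h2 : (N : ℝ) ^ ((1 : ℝ) / (4 * Q)) ≤ (N : ℝ) ^ ((1 : ℝ) / (2 * Q)) := by
        apply Real.rpow_le_rpow_of_exponent_le hN'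
        gcongr; norm_num
      rw [neg_div, Real.rpow_neg (by positivity), ← div_eq_mul_inv,
        div_le_div_iff₀ (by positivity) h1]
      linarith
    have hlog : 1 + Real.log H ≤ (1 + 4 * Q) * (N : ℝ) ^ ((1 : ℝ) / (4 * Q)) := by
      have h1 : Real.log H ≤ Real.log N := Real.log_le_log (by positivity) (by exact_mod_cast hHN)
      have h2 := Real.log_le_rpow_div (x := N) (ε := (1 : ℝ) / (4 * Q)) (by positivity)
        (by positivity)
      have h3 : (N : ℝ) ^ ((1 : ℝ) / (4 * Q)) / ((1 : ℝ) / (4 * Q)) =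
          4 * Q * (N : ℝ) ^ ((1 : ℝ) / (4 * Q)) := by
        field_simp
      have h4 : (1 : ℝ) ≤ (N : ℝ) ^ ((1 : ℝ) / (4 * Q)) := Real.one_le_rpow hN' (by positivity)
      rw [h3] at h2
      nlinarith
    have hterm2 : (2 / (Z * (c0 / (N : ℝ) ^ (Q + 1))) / N) *
          ((∑ l ∈ Ico 1 H, (1 : ℝ) / l) / H) ^ Q ≤
        (2 / c0) * 2 ^ Q * (1 + 4 * Q) ^ Q * (N : ℝ) ^ (-(1 : ℝ) / (4 * Q)) := by
      have hs0 : 0 ≤ ∑ l ∈ Ico 1 H, (1 : ℝ) / l := sum_nonneg fun _ _ => by positivity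
      have h1 : ((∑ l ∈ Ico 1 H, (1 : ℝ) / l) / H) ^ Q ≤
          (((1 + 4 * Q) * (N : ℝ) ^ ((1 : ℝ) / (4 * Q))) / (hh / 2)) ^ Q := by
        gcongr
        exact (harm_le H).trans hlog
      have h2 : (((1 + 4 * Q) * (N : ℝ) ^ ((1 : ℝ) / (4 * Q))) / (hh / 2)) ^ Q =
          (1 + 4 * Q) ^ Q * (N : ℝ) ^ ((1 : ℝ) / 4) * 2 ^ Q / hh ^ Q := by
        rw [div_pow, mul_pow, div_pow, div_div_eq_mul_div]
        congr 3
        rw [← Real.rpow_natCast, ← Real.rpow_mul (by positivity)]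
        congr 1; field_simp
      have h3 : (N : ℝ) ^ ((1 : ℝ) / 4) * (N : ℝ) ^ Q * (N : ℝ) ^ ((1 : ℝ) / (4 * Q)) ≤
          Z * hh ^ Q := by
        rw [hZh, ← Real.rpow_natCast, ← Real.rpow_add hNpos, ← Real.rpow_add hNpos]
        apply Real.rpow_le_rpow_of_exponent_le hN'
        have : (1 : ℝ) / (4 * Q) ≤ 1 / 4 := by
          rw [div_le_div_iff₀ (by positivity) (by norm_num)]; linarith
        linarith
      have hNQ : (0 : ℝ) < (N : ℝ) ^ ((1 : ℝ) / (4 * Q)) := by positivity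
      calc _ ≤ (2 / (Z * (c0 / (N : ℝ) ^ (Q + 1))) / N) *
            ((1 + 4 * Q) ^ Q * (N : ℝ) ^ ((1 : ℝ) / 4) * 2 ^ Q / hh ^ Q) := by
              rw [← h2]; gcongr
        _ = (2 / c0) * 2 ^ Q * (1 + 4 * Q) ^ Q *
            (((N : ℝ) ^ ((1 : ℝ) / 4) * (N : ℝ) ^ Q) / (Z * hh ^ Q)) := by
            rw [pow_succ (N : ℝ) Q]
            exact alg_aux2 _ _ _ _ _ _ _ _ hZ.ne' hNpos.ne' hc0.ne' (by positivity)
              (by positivity)
        _ ≤ _ := by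
            gcongr
            rw [neg_div, Real.rpow_neg (by positivity), ← one_div,
              div_le_div_iff₀ (by positivity) hNQ]
            linarith
    have hfin : (‖SD φ Z u L []‖ / N) ^ (2 ^ Q) ≤ K * (N : ℝ) ^ (-(1 : ℝ) / (4 * Q)) := by
      refine hb.trans ?_
      calc _ ≤ Cq Q * (2 * (N : ℝ) ^ (-(1 : ℝ) / (4 * Q)) +
            (2 / c0) * 2 ^ Q * (1 + 4 * Q) ^ Q * (N : ℝ) ^ (-(1 : ℝ) / (4 * Q))) := by
            gcongr
        _ = _ := by rw [hK]; ring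
    have hroot : ‖SD φ Z u L []‖ / N ≤ K ^ ((1 : ℝ) / 2 ^ Q) * (N : ℝ) ^ (-η) := by
      have h1 : (‖SD φ Z u L []‖ / N) =
          ((‖SD φ Z u L []‖ / N) ^ (2 ^ Q)) ^ ((1 : ℝ) / 2 ^ Q) := by
        rw [← Real.rpow_natCast, ← Real.rpow_mul (by positivity)]
        push_cast
        rw [mul_one_div_cancel (by positivity), Real.rpow_one]
      rw [h1]
      calc _ ≤ (K * (N : ℝ) ^ (-(1 : ℝ) / (4 * Q))) ^ ((1 : ℝ) / 2 ^ Q) := by gcongr
        _ = K ^ ((1 : ℝ) / 2 ^ Q) * (N : ℝ) ^ (-(1 : ℝ) / (4 * Q) * (1 / 2 ^ Q)) := by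
            rw [Real.mul_rpow hK0.le (by positivity), ← Real.rpow_mul (by positivity)]
        _ ≤ _ := by
            gcongr
            have : -(1 : ℝ) / (4 * Q) * (1 / 2 ^ Q) = -(1 / (4 * Q * 2 ^ Q)) := by
              field_simp
            rw [this, hη]
    rw [div_le_iff₀ hNpos] at hroot
    calc ‖SD φ Z u L []‖ ≤ K ^ ((1 : ℝ) / 2 ^ Q) * (N : ℝ) ^ (-η) * N := hroot
      _ ≤ C * (N : ℝ) ^ (-η) * N := by gcongr
      _ = C * (N : ℝ) ^ (1 - η) := by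
        rw [mul_assoc, sub_eq_neg_add, Real.rpow_add hNpos, Real.rpow_one]
      _ ≤ _ := by rw [mul_add]; linarith

/-- `c (c - 1) ... (c - m + 1)` -/
noncomputable def Dm (c : ℝ) (m : ℕ) : ℝ := ∏ j ∈ range m, (c - j)

/-- the derivatives of `(t / N) ^ c` -/
noncomputable def ph (c N : ℝ) (m : ℕ) (t : ℝ) : ℝ := Dm c m * t ^ (c - m) / N ^ c

lemma Dm_pos {k : ℕ} {c : ℝ} (h1 : (k : ℝ) < c) (h2 : c < k + 1) : 0 < Dm c (k + 3) := by
  unfold Dm
  rw [prod_range_succ, prod_range_succ]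
  have h3 : 0 < ∏ j ∈ range (k + 1), (c - j) := by
    apply prod_pos
    intro j hj
    rw [mem_range] at hj
    have : (j : ℝ) ≤ k := by exact_mod_cast (by omega : j ≤ k)
    linarith
  rw [mul_assoc]
  apply mul_pos h3
  apply mul_pos_of_neg_of_neg
  · push_cast; linarith
  · push_cast; linarith

lemma hy_ph {k : ℕ} {c : ℝ} (h1 : (k : ℝ) < c) (h2 : c < k + 1) (N : ℕ) (hN : 1 ≤ N) {c0 C0 : ℝ}
    (hc : c0 ≤ Dm c (k + 3) * 3 ^ (c - (k + 3 : ℝ))) (hC : Dm c (k + 3) ≤ C0) :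
    Hy (k + 2) N (3 * N) (c0 / (N : ℝ) ^ (k + 2 + 1)) (C0 / (N : ℝ) ^ (k + 2 + 1))
      (ph c N) := by
  have hN' : (1 : ℝ) ≤ N := by exact_mod_cast hN
  have hNp : (0 : ℝ) < N := by linarith
  have hD := Dm_pos h1 h2
  have key : ∀ x : ℝ, 0 < x → (x * N) ^ (c - ((k + 3 : ℕ) : ℝ)) / (N : ℝ) ^ c =
      x ^ (c - (k + 3 : ℝ)) / (N : ℝ) ^ (k + 3) := by
    intro x hx
    rw [Real.mul_rpow hx.le hNp.le, Real.rpow_sub hNp, Real.rpow_natCast]
    have : (N : ℝ) ^ c ≠ 0 := by positivity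
    push_cast
    field_simp
  refine ⟨?_, ?_, ?_, ?_⟩
  · intro m _ t ht
    have ht0 : 0 < t := lt_of_lt_of_le hNp ht.1
    have h3 := ((Real.hasDerivAt_rpow_const (x := t) (p := c - m) (Or.inl ht0.ne')).const_mul
      (Dm c m)).div_const ((N : ℝ) ^ c)
    have hDm : Dm c (m + 1) = Dm c m * (c - m) := by
      unfold Dm
      rw [prod_range_succ]
    have hval : Dm c m * ((c - m) * t ^ (c - m - 1)) / (N : ℝ) ^ c = ph c N (m + 1) t := by
      unfold ph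
      rw [hDm]
      push_cast
      rw [show c - (m + 1 : ℝ) = c - m - 1 by ring]
      ring
    rw [hval] at h3
    exact h3
  · intro t ht
    have ht0 : 0 < t := lt_of_lt_of_le hNp ht.1
    have h3 := key 3 (by norm_num)
    have h4 : (3 * (N : ℝ)) ^ (c - ((k + 3 : ℕ) : ℝ)) ≤ t ^ (c - ((k + 3 : ℕ) : ℝ)) := by
      apply Real.rpow_le_rpow_of_nonpos ht0 ht.2
      push_cast; linarith
    unfold ph
    calc c0 / (N : ℝ) ^ (k + 2 + 1) ≤ Dm c (k + 3) * 3 ^ (c - (k + 3 : ℝ)) / (N : ℝ) ^ (k + 3) := by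
          gcongr
      _ = Dm c (k + 3) * ((3 * N) ^ (c - ((k + 3 : ℕ) : ℝ)) / (N : ℝ) ^ c) := by
          rw [h3]; ring
      _ ≤ Dm c (k + 3) * (t ^ (c - ((k + 3 : ℕ) : ℝ)) / (N : ℝ) ^ c) := by gcongr
      _ = _ := by rw [mul_div_assoc]
  · intro t ht
    have ht0 : 0 < t := lt_of_lt_of_le hNp ht.1
    have h3 := key 1 (by norm_num)
    rw [one_mul, Real.one_rpow] at h3
    have h4 : t ^ (c - ((k + 3 : ℕ) : ℝ)) ≤ (N : ℝ) ^ (c - ((k + 3 : ℕ) : ℝ)) := by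
      apply Real.rpow_le_rpow_of_nonpos hNp ht.1
      push_cast; linarith
    unfold ph
    calc Dm c (k + 3) * t ^ (c - ((k + 3 : ℕ) : ℝ)) / (N : ℝ) ^ c
        ≤ Dm c (k + 3) * (N : ℝ) ^ (c - ((k + 3 : ℕ) : ℝ)) / (N : ℝ) ^ c := by gcongr
      _ = Dm c (k + 3) * (1 / (N : ℝ) ^ (k + 3)) := by rw [mul_div_assoc, h3]
      _ ≤ C0 * (1 / (N : ℝ) ^ (k + 3)) := by gcongr
      _ = _ := by ring
  · intro t ht
    have ht0 : 0 < t := lt_of_lt_of_le hNp ht.1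
    unfold ph
    have h5 : Dm c (k + 4) ≤ 0 := by
      have h6 : Dm c (k + 4) = Dm c (k + 3) * (c - ((k + 3 : ℕ) : ℝ)) := by
        unfold Dm
        rw [prod_range_succ]
      rw [h6]
      apply mul_nonpos_of_nonneg_of_nonpos hD.le
      push_cast; linarith
    apply div_nonpos_of_nonpos_of_nonneg _ (by positivity)
    exact mul_nonpos_of_nonpos_of_nonneg h5 (by positivity)

/-- small frequencies -/
lemma direct {c : ℝ} (hc : 1 < c) (N L : ℕ) (u Z : ℝ) (hN : 1 ≤ N) (hu : (N : ℝ) ≤ u)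
    (huL : u + L ≤ 3 * N) (hZ : 1 ≤ Z) (hZ2 : Z ≤ (N : ℝ) ^ (3 / 4 : ℝ))
    (hbig : 2 * (c * 3 ^ c) ≤ (N : ℝ) ^ (1 / 4 : ℝ)) :
    ‖∑ n ∈ range L, e (Z * ph c N 0 (u + n))‖ ≤ 2 * (N / Z) := by
  have hN' : (1 : ℝ) ≤ N := by exact_mod_cast hN
  have hNp : (0 : ℝ) < N := by linarith
  have hZ0 : 0 < Z := by linarith
  have hD0 : ∀ t : ℝ, ph c N 0 t = t ^ c / (N : ℝ) ^ c := by
    intro t; simp [ph, Dm]
  -- the first difference
  have hd : ∀ y : ℝ, 0 < y → ∃ ξ, y < ξ ∧ ξ < y + 1 ∧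
      ph c N 0 (y + 1) - ph c N 0 y = c * ξ ^ (c - 1) / (N : ℝ) ^ c := by
    intro y hy
    obtain ⟨ξ, hξ, h2⟩ := exists_hasDerivAt_eq_slope (fun t : ℝ => t ^ c / (N : ℝ) ^ c)
      (fun t => c * t ^ (c - 1) / (N : ℝ) ^ c) (a := y) (b := y + 1) (by linarith)
      (fun t ht => ((Real.hasDerivAt_rpow_const (x := t) (p := c)
        (Or.inl (by linarith [ht.1]))).div_const _).continuousAt.continuousWithinAt)
      (fun t ht => (Real.hasDerivAt_rpow_const (x := t) (p := c)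
        (Or.inl (by linarith [ht.1]))).div_const _)
    refine ⟨ξ, hξ.1, hξ.2, ?_⟩
    rw [hD0, hD0, h2]
    simp
  have hNc : (0 : ℝ) < (N : ℝ) ^ c := by positivity
  have hNc1 : (N : ℝ) ^ (c - 1) / (N : ℝ) ^ c = 1 / N := by
    rw [Real.rpow_sub hNp, Real.rpow_one]; field_simp
  have h3c : (3 : ℝ) ^ (c - 1) ≤ 3 ^ c := by
    apply Real.rpow_le_rpow_of_exponent_le (by norm_num); linarith
  have hKL := kusmin_landau_mono (fun n => Z * ph c N 0 (u + (n : ℝ))) L (θ := Z / N)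
    (by positivity) (by
      intro n hn
      have hn0 : (0 : ℝ) ≤ n := Nat.cast_nonneg n
      obtain ⟨ξ, h1, h2, h3⟩ := hd (u + n) (by linarith)
      push_cast
      rw [← add_assoc, ← mul_sub, h3]
      have h4 : (N : ℝ) ^ (c - 1) ≤ ξ ^ (c - 1) := by
        apply Real.rpow_le_rpow hNp.le (by linarith) (by linarith)
      calc Z / N = Z * (1 * (N : ℝ) ^ (c - 1) / (N : ℝ) ^ c) := by rw [one_mul, hNc1]; ring
        _ ≤ Z * (c * ξ ^ (c - 1) / (N : ℝ) ^ c) := by gcongr) (by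
      intro n hn
      have hn0 : (0 : ℝ) ≤ n := Nat.cast_nonneg n
      obtain ⟨ξ, h1, h2, h3⟩ := hd (u + n) (by linarith)
      have hnL : (n : ℝ) + 1 ≤ L := by exact_mod_cast hn
      push_cast
      rw [← add_assoc, ← mul_sub, h3]
      have h4 : ξ ^ (c - 1) ≤ (3 * N : ℝ) ^ (c - 1) := by
        apply Real.rpow_le_rpow (by linarith) (by linarith) (by linarith)
      rw [Real.mul_rpow (by norm_num) hNp.le] at h4
      have h5 : Z * (c * ξ ^ (c - 1) / (N : ℝ) ^ c) ≤ Z * (c * 3 ^ c) / N := by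
        calc Z * (c * ξ ^ (c - 1) / (N : ℝ) ^ c)
            ≤ Z * (c * (3 ^ (c - 1) * (N : ℝ) ^ (c - 1)) / (N : ℝ) ^ c) := by gcongr
          _ = Z * (c * 3 ^ (c - 1)) * ((N : ℝ) ^ (c - 1) / (N : ℝ) ^ c) := by ring
          _ = Z * (c * 3 ^ (c - 1)) / N := by rw [hNc1]; ring
          _ ≤ _ := by gcongr
      have h6 : 2 * (Z * (c * 3 ^ c)) ≤ N := by
        have e2 : (N : ℝ) ^ (3 / 4 : ℝ) * (N : ℝ) ^ (1 / 4 : ℝ) = (N : ℝ) := by
          rw [← Real.rpow_add hNp]; norm_num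
        calc 2 * (Z * (c * 3 ^ c)) = Z * (2 * (c * 3 ^ c)) := by ring
          _ ≤ (N : ℝ) ^ (3 / 4 : ℝ) * (N : ℝ) ^ (1 / 4 : ℝ) := by gcongr
          _ = N := e2
      have h7 : Z * (c * 3 ^ c) / N ≤ 1 / 2 := by
        rw [div_le_div_iff₀ hNp (by norm_num)]; linarith
      have h8 : Z / N ≤ 1 / 2 := by
        rw [div_le_div_iff₀ hNp (by norm_num)]
        have : 1 * 1 ≤ c * 3 ^ c := by
          gcongr
          exact Real.one_le_rpow (by norm_num) (by linarith)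
        nlinarith
      linarith) (by
      intro n hn
      have hn0 : (0 : ℝ) ≤ n := Nat.cast_nonneg n
      obtain ⟨ξ, h1, h2, h3⟩ := hd (u + n) (by linarith)
      obtain ⟨ζ, h4, h5, h6⟩ := hd (u + n + 1) (by linarith)
      push_cast
      rw [show u + (n + 2 : ℝ) = u + n + 1 + 1 by ring, show u + (n + 1 : ℝ) = u + n + 1 by ring,
        ← mul_sub, ← mul_sub, h3, h6]
      have h7 : ξ ^ (c - 1) ≤ ζ ^ (c - 1) := by
        apply Real.rpow_le_rpow (by linarith) (by linarith) (by linarith)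
      gcongr)
  refine hKL.trans (le_of_eq ?_)
  field_simp

lemma ee_eq (x : ℝ) : Pool.Agent.Helper602.MK.ee x = e x := by
  unfold Pool.Agent.Helper602.MK.ee e
  push_cast
  rfl

/-- one dyadic block -/
lemma block {k : ℕ} {c : ℝ} (hk : 1 ≤ k) (h1 : (k : ℝ) < c) (h2 : c < k + 1) :
    ∃ C : ℝ, 0 < C ∧ ∀ (M L x₀ : ℕ) (lam : ℝ), 1 ≤ M → M ≤ x₀ → x₀ + L ≤ 2 * M →
      1 ≤ |lam| * (M : ℝ) ^ c → |lam| * (M : ℝ) ^ c ≤ (M : ℝ) ^ (k + 2) →
      ‖∑ n ∈ range L, e (lam * ((x₀ : ℝ) + n) ^ c)‖ ≤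
        C * ((M : ℝ) ^ (1 - (1 / (4 * (k + 2 : ℕ) * 2 ^ (k + 2)) : ℝ)) +
          M / (|lam| * (M : ℝ) ^ c)) := by
  have hk' : (1 : ℝ) ≤ k := by exact_mod_cast hk
  have hD := Dm_pos h1 h2
  obtain ⟨C, hC, hmain⟩ := core (k + 2) (by omega) (Dm c (k + 3) * 3 ^ (c - (k + 3 : ℝ)))
    (max (Dm c (k + 3)) (max 1 (c * 3 ^ c))) 2 (by positivity)
    ((le_max_left _ _).trans (le_max_right _ _)) (by norm_num)
  refine ⟨C, hC, ?_⟩
  intro M L x₀ lam hM hx hL hl1 hl2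
  have hM' : (1 : ℝ) ≤ M := by exact_mod_cast hM
  have hx' : (M : ℝ) ≤ x₀ := by exact_mod_cast hx
  have hL' : (x₀ : ℝ) + L ≤ 2 * M := by exact_mod_cast hL
  have hMp : (0 : ℝ) < M := by linarith
  have h3 := hmain M L x₀ (|lam| * (M : ℝ) ^ c) (ph c M) hM hx' (by omega) (by linarith)
    (hy_ph h1 h2 M hM le_rfl (le_max_left _ _)) (fun hb hZ => by
      refine direct (by linarith) M L x₀ _ hM hx' (by linarith) hl1 hZ (le_trans ?_ hb)
      have : c * 3 ^ c ≤ max (Dm c (k + 3)) (max 1 (c * 3 ^ c)) :=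
        (le_max_right _ _).trans (le_max_right _ _)
      linarith) hl1 hl2
  refine le_trans (le_of_eq ?_) h3
  have h4 : ∀ n : ℕ, |lam| * (M : ℝ) ^ c * ph c M 0 ((x₀ : ℝ) + n) =
      |lam| * ((x₀ : ℝ) + n) ^ c := by
    intro n
    have : (M : ℝ) ^ c ≠ 0 := by positivity
    simp only [ph, Dm, range_zero, prod_empty, one_mul, Nat.cast_zero, sub_zero]
    field_simp
  simp only [h4]
  rcases le_or_gt 0 lam with h | h
  · rw [abs_of_nonneg h]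
  · rw [abs_of_neg h, ← norm_sum_neg]
    congr 1
    refine sum_congr rfl fun n _ => ?_
    congr 1; ring

/-- sums over dyadic blocks -/
lemma blocks (f : ℕ → ℂ) (P : ℕ) (B : ℝ) (hB : 0 ≤ B) (T : ℕ)
    (h : ∀ i < T, ∀ x₀ N : ℕ, 2 ^ i * P ≤ x₀ → x₀ + N ≤ 2 ^ (i + 1) * P →
      ‖∑ n ∈ range N, f (x₀ + n)‖ ≤ B) :
    ∀ i ≤ T, ∀ x₀ N : ℕ, P ≤ x₀ → x₀ + N ≤ 2 ^ i * P →
      ‖∑ n ∈ range N, f (x₀ + n)‖ ≤ i * B := by
  intro i
  induction i with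
  | zero =>
    intro _ x₀ N h1 h2
    have : N = 0 := by omega
    subst this
    simp
  | succ i ih =>
    intro hi x₀ N h1 h2
    have hiB : 0 ≤ (i : ℝ) * B := by positivity
    rcases le_or_gt (x₀ + N) (2 ^ i * P) with h3 | h3
    · refine (ih (by omega) x₀ N h1 h3).trans ?_
      push_cast
      linarith
    rcases le_or_gt (2 ^ i * P) x₀ with h4 | h4
    · refine (h i (by omega) x₀ N h4 h2).trans ?_
      push_cast
      linarith
    obtain ⟨N₁, hN₁⟩ : ∃ N₁, x₀ + N₁ = 2 ^ i * P := ⟨2 ^ i * P - x₀, by omega⟩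
    obtain ⟨N₂, rfl⟩ : ∃ N₂, N = N₁ + N₂ := ⟨N - N₁, by omega⟩
    rw [Finset.sum_range_add]
    refine (norm_add_le _ _).trans ?_
    have h5 := ih (by omega) x₀ N₁ h1 (by omega)
    have h6 := h i (by omega) (x₀ + N₁) N₂ (by omega) (by omega)
    simp only [add_assoc] at h6
    push_cast
    linarith

theorem min : Pool.Agent.Y935.RE.S_MIN := by
  intro k δ hk hδ
  set η : ℝ := 1 / (4 * (k + 2 : ℕ) * 2 ^ (k + 2)) with hη
  have hk' : (1 : ℝ) ≤ k := by exact_mod_cast hk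
  have h2Q : (1 : ℝ) ≤ 2 ^ (k + 2) := one_le_pow₀ (by norm_num)
  have hη0 : 0 < η := by rw [hη]; positivity
  have hη1 : η ≤ 1 / 4 := by
    rw [hη, div_le_div_iff₀ (by positivity) (by norm_num)]
    push_cast
    nlinarith
  have hmin : 0 < Min.min η δ := lt_min hη0 hδ
  set σ : ℝ := Min.min η δ / 2 with hσ
  have hσ0 : 0 < σ := by rw [hσ]; positivity
  have hσ1 : 2 * σ ≤ η := by rw [hσ]; linarith [min_le_left η δ]
  have hσ2 : 2 * σ ≤ δ := by rw [hσ]; linarith [min_le_right η δ]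
  refine ⟨σ, hσ0, ?_⟩
  intro c T hc1 hc2 hT
  obtain ⟨C, hC, hblock⟩ := block hk hc1 hc2
  have hev : ∀ᶠ P : ℕ in atTop, (T : ℝ) * (2 * C * 2 ^ T) ≤ (P : ℝ) ^ σ :=
    ((tendsto_rpow_atTop hσ0).comp tendsto_natCast_atTop_atTop).eventually_ge_atTop _
  filter_upwards [hev, eventually_ge_atTop 1] with P hP1 hP2
  intro lam hl1 hl2 x₀ N hx hN
  have hP' : (1 : ℝ) ≤ P := by exact_mod_cast hP2
  have hPp : (0 : ℝ) < P := by linarith
  set B : ℝ := 2 * C * 2 ^ T * (P : ℝ) ^ (1 - 2 * σ) with hB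
  have hB0 : 0 ≤ B := by rw [hB]; positivity
  have hbl : ∀ i < T, ∀ x₀ N : ℕ, 2 ^ i * P ≤ x₀ → x₀ + N ≤ 2 ^ (i + 1) * P →
      ‖∑ n ∈ range N, e (lam * ((x₀ + n : ℕ) : ℝ) ^ c)‖ ≤ B := by
    intro i hi x₀ N h1 h2
    have hM1 : P ≤ 2 ^ i * P := Nat.le_mul_of_pos_left P (by positivity)
    have hM2 : 2 ^ i * P ≤ 2 ^ T * P :=
      Nat.mul_le_mul_right P (Nat.pow_le_pow_right (by norm_num) hi.le)
    generalize hMd : 2 ^ i * P = M at *
    have hMP : (P : ℝ) ≤ M := by exact_mod_cast hM1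
    have hMT : (M : ℝ) ≤ 2 ^ T * P := by exact_mod_cast hM2
    have hM' : (1 : ℝ) ≤ M := by linarith
    have hMp : (0 : ℝ) < M := by linarith
    have hPd : (1 : ℝ) ≤ (P : ℝ) ^ δ := Real.one_le_rpow hP' hδ.le
    have hZ1 : (P : ℝ) ^ δ ≤ |lam| * (M : ℝ) ^ c := by
      calc (P : ℝ) ^ δ = (P : ℝ) ^ (δ - c) * (P : ℝ) ^ c := by
            rw [← Real.rpow_add hPp]; congr 1; ring
        _ ≤ |lam| * (M : ℝ) ^ c := by
            gcongr
            linarith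
    have hZ2 : |lam| * (M : ℝ) ^ c ≤ (M : ℝ) ^ (k + 2) := by
      calc |lam| * (M : ℝ) ^ c ≤ (M : ℝ) ^ σ * (M : ℝ) ^ c := by
            gcongr
            refine hl2.trans ?_
            gcongr
        _ = (M : ℝ) ^ (σ + c) := by rw [Real.rpow_add hMp]
        _ ≤ (M : ℝ) ^ ((k + 2 : ℕ) : ℝ) := by
            apply Real.rpow_le_rpow_of_exponent_le hM'
            push_cast
            linarith
        _ = _ := Real.rpow_natCast _ _
    have h3 := hblock M N x₀ lam (by omega) h1 (by rw [pow_succ] at h2; nlinarith)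
      (hPd.trans hZ1) hZ2
    push_cast
    refine h3.trans ?_
    have h4 : (M : ℝ) ^ (1 - η) ≤ 2 ^ T * (P : ℝ) ^ (1 - 2 * σ) := by
      calc (M : ℝ) ^ (1 - η) ≤ (2 ^ T * P : ℝ) ^ (1 - η) := by
            apply Real.rpow_le_rpow hMp.le hMT (by linarith)
        _ = (2 ^ T : ℝ) ^ (1 - η) * (P : ℝ) ^ (1 - η) := by
            rw [Real.mul_rpow (by positivity) (by positivity)]
        _ ≤ (2 ^ T : ℝ) ^ (1 : ℝ) * (P : ℝ) ^ (1 - 2 * σ) := by
            have h5 : (1 : ℝ) ≤ 2 ^ T := one_le_pow₀ (by norm_num)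
            gcongr
            linarith
        _ = _ := by rw [Real.rpow_one]
    have h5 : (M : ℝ) / (|lam| * (M : ℝ) ^ c) ≤ 2 ^ T * (P : ℝ) ^ (1 - 2 * σ) := by
      calc (M : ℝ) / (|lam| * (M : ℝ) ^ c) ≤ (2 ^ T * P) / (P : ℝ) ^ δ := by gcongr
        _ = 2 ^ T * (P : ℝ) ^ (1 - δ) := by
            rw [Real.rpow_sub hPp, Real.rpow_one]; ring
        _ ≤ _ := by gcongr
    calc C * ((M : ℝ) ^ (1 - η) + M / (|lam| * (M : ℝ) ^ c))
        ≤ C * (2 ^ T * (P : ℝ) ^ (1 - 2 * σ) + 2 ^ T * (P : ℝ) ^ (1 - 2 * σ)) := by gcongr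
      _ = B := by rw [hB]; ring
  have hTT : T * P ≤ 2 ^ T * P := Nat.mul_le_mul_right P Nat.lt_two_pow_self.le
  have hfin := blocks (fun n : ℕ => e (lam * (n : ℝ) ^ c)) P B hB0 T hbl T le_rfl x₀ N hx
    (hN.trans hTT)
  simp only [ee_eq]
  have hc : ∀ n : ℕ, ((x₀ + n : ℕ) : ℝ) = (x₀ : ℝ) + n := by intro n; push_cast; rfl
  simp only [hc] at hfin
  refine hfin.trans ?_
  calc (T : ℝ) * B = (T : ℝ) * (2 * C * 2 ^ T) * (P : ℝ) ^ (1 - 2 * σ) := by rw [hB]; ring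
    _ ≤ (P : ℝ) ^ σ * (P : ℝ) ^ (1 - 2 * σ) := by gcongr
    _ = _ := by rw [← Real.rpow_add hPp]; congr 1; ring

end Pool.Agent.Y847.RE
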